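import Pool.Agent.PFD.StmtsD3
import Pool.Agent.PFD.Witt

set_option autoImplicit false

noncomputable section

namespace Pool.Agent.PFD.H52

open Pool.Agent.PFD

theorem wit : D3.WitStmt := by
  intro ℓ _ F _ _ _
  obtain ⟨τ, hτ⟩ := D2.witt_teich ℓ F
  exact ⟨D2.wittCdv ℓ F, ⟨{
    pr := Fact.out
    ch := inferInstance
    ch0 := D2.witt_charZero ℓ F
    dom := D2.witt_dom ℓ F
    pid := D2.witt_pid ℓ F
    τ := τ
    τκ := hτ }⟩⟩

end Pool.Agent.PFD.H52
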