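import Pool.Agent.PFD.StmtsD5a
import Pool.Agent.Helper17_AT8.OMI
import Pool.Agent.Helper14_AT8.FRY
import Pool.Agent.Helper52_PFC.JUN

/-!
# Squad PFD, row FUL: the ideal generated by the coherent local idempotent

`z`, the sum of the conjugates `x j x⁻¹` over the cosets `x V`, is a class function in the ideal
generated by `j`.  By OMI its central character at `e` is `ix V γ` times the residue of
`|C| X / (|V| c)`, `X = ∑_{t ∈ C} i(t) κ(t)`; the product with `|V| c / |C|` (in `RM M` by KNZ) is `X`,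
whose residue is not zero (`Jd.nz`).  A class function with a nonzero central character at the block
`e` is invertible on `e` (`H50.blk_dich`).
-/

set_option autoImplicit false

open scoped BigOperators

noncomputable section

namespace Pool.Agent.PFD.H52

open Pool.Agent.PFD
open Pool.Agent.Helper51_AWC Pool.Agent.Helper79_WRA Pool.Agent.PP Pool.Agent.PP.KF
open Pool.Agent.PP.K9 Pool.Agent.PP.K9.H97 Pool.Agent.PP.H75 Pool.Agent.PP.T3 Pool.Agent.PP.T2
open Pool.Agent.PFC (Jd Crn jal Pj PIn Ctf ls Cz cv)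

attribute [local instance] Ideal.Quotient.field

theorem cj_eq_mulF {F G : Type} [Field F] [Group G] [Finite G] (x : G) (a : G → F) :
    cj x a = mulF (mulF (dl F x) a) (dl F x⁻¹) := by
  rw [PFC.mulF_dl_r, PFC.mulF_dl_l]
  funext y
  rw [cj, inv_inv]
  congr 1
  group

/-- The ideal generated by `j`. -/
def Sj {F G : Type} [Field F] [Group G] [Finite G] (j : G → F) : Submodule F (G → F) :=
  Submodule.span F {x : G → F | ∃ a b, x = mulF a (mulF j b)}

theorem mulF_mem_l {F G : Type} [Field F] [Group G] [Finite G] {j : G → F} (c : G → F) {x : G → F}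
    (hx : x ∈ Sj j) : mulF c x ∈ Sj j := by
  induction hx using Submodule.span_induction with
  | mem x h =>
    obtain ⟨a, b, rfl⟩ := h
    exact Submodule.subset_span ⟨mulF c a, b, (H20.mulF_assoc _ _ _).symm⟩
  | zero =>
    have h0 : mulF c (0 : G → F) = 0 := by
      apply ma_injective
      rw [ma_mul, ma_zero, mul_zero]
    rw [h0]
    exact Submodule.zero_mem _
  | add x y _ _ h1 h2 =>
    have h0 : mulF c (x + y) = mulF c x + mulF c y := by
      apply ma_injective
      rw [ma_mul, ma_add, ma_add, ma_mul, ma_mul, mul_add]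
    rw [h0]
    exact Submodule.add_mem _ h1 h2
  | smul w x _ h1 =>
    have h0 : mulF c (w • x) = w • mulF c x := by
      apply ma_injective
      rw [ma_mul, ma_smul, ma_smul, ma_mul, mul_smul_comm]
    rw [h0]
    exact Submodule.smul_mem _ _ h1

theorem mulF_mem_r {F G : Type} [Field F] [Group G] [Finite G] {j : G → F} (c : G → F) {x : G → F}
    (hx : x ∈ Sj j) : mulF x c ∈ Sj j := by
  induction hx using Submodule.span_induction with
  | mem x h =>
    obtain ⟨a, b, rfl⟩ := h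
    exact Submodule.subset_span ⟨a, mulF b c, by rw [H20.mulF_assoc, H20.mulF_assoc]⟩
  | zero =>
    have h0 : mulF (0 : G → F) c = 0 := by
      apply ma_injective
      rw [ma_mul, ma_zero, zero_mul]
    rw [h0]
    exact Submodule.zero_mem _
  | add x y _ _ h1 h2 =>
    have h0 : mulF (x + y) c = mulF x c + mulF y c := by
      apply ma_injective
      rw [ma_mul, ma_add, ma_add, ma_mul, ma_mul, add_mul]
    rw [h0]
    exact Submodule.add_mem _ h1 h2
  | smul w x _ h1 =>
    have h0 : mulF (w • x) c = w • mulF x c := by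
      apply ma_injective
      rw [ma_mul, ma_smul, ma_smul, ma_mul, smul_mul_assoc]
    rw [h0]
    exact Submodule.smul_mem _ _ h1

theorem self_mem {F G : Type} [Field F] [Group G] [Finite G] {j : G → F} (hj : mulF j j = j) :
    j ∈ Sj j :=
  Submodule.subset_span ⟨j, j, by rw [hj, hj]⟩

theorem tsm_mem {F G : Type} [Field F] [Group G] [Finite G] {j : G → F} (hj : mulF j j = j)
    (V : Subgroup G) : tsm V j ∈ Sj j := by
  classical
  have := Fintype.ofFinite (G ⧸ V)
  have h1 : tsm V j = ∑ q : G ⧸ V, cj q.out j := by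
    funext g
    unfold tsm
    rw [finsum_eq_sum_of_fintype, Finset.sum_apply]
  rw [h1]
  refine Submodule.sum_mem _ fun q _ => ?_
  rw [cj_eq_mulF]
  exact mulF_mem_r _ (mulF_mem_l _ (self_mem hj))

theorem res_ne {ℓ : ℕ} [Fact ℓ.Prime] (lft : T8.LftStmt) (omi : T8.OmiStmt) (knz : T8.KnzStmt)
    (dgc : DgcStmt) (inx : K9.InxStmt) {M : Ideal (integralClosure ℤ ℂ)} [M.IsMaximal]
    (hM : (ℓ : integralClosure ℤ ℂ) ∈ M) {G : Type} [Group G] [Finite G] {e : G → FF M}
    {V : Subgroup G} {γ : G → FF M} (hL : Ld ℓ e V γ) {j : G → FF M} (hj : Jd M V γ j)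
    {χ : G → ℂ} (hχ : χ ∈ IrrE M e) : res M (tsm V j) χ ≠ 0 := by
  classical
  have hF : GoodF ℓ (FF M) := H50.fld ℓ Fact.out M hM
  obtain ⟨i, hi, -, hij⟩ := lft M G V ⊤ j hj.id (fun g hg => absurd (Subgroup.mem_top g) hg) hj.iv
  obtain ⟨c, hc⟩ := dgc ℓ M hM G e V γ hL
  obtain ⟨κ, hκ⟩ := T8.H14.irrE_nonempty M hL.gam.blk.1 hL.gam.blk.2.1
  obtain ⟨hQ, -⟩ := knz ℓ M hM G e V γ hL c hc
  have hgm : mulF (br V (T8.rd M i)) γ = br V (T8.rd M i) := by
    rw [hij]
    exact (PFC.H52.jun ℓ M hM G e V γ hL j hj).2.2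
  obtain ⟨hA, hB, hAB⟩ := omi ℓ M hM G e V γ hL i hi.rm hi.iv hgm χ hχ κ hκ
  have hκ1 : κ 1 = c := hc.2 κ hκ
  rw [hκ1] at hB hAB
  have hc0 : (c : ℂ) ≠ 0 := by
    have := hc.1
    exact_mod_cast this.ne'
  have hV0 : (Nat.card V : ℂ) ≠ 0 := by exact_mod_cast Nat.card_pos.ne'
  have hC0 : (Nat.card (Subgroup.centralizer (V : Set G)) : ℂ) ≠ 0 := by
    exact_mod_cast Nat.card_pos.ne'
  obtain ⟨X, hX⟩ : ∃ X : ℂ, X = ∑ᶠ t : Subgroup.centralizer (V : Set G), i t * κ t := ⟨_, rfl⟩
  rw [← hX] at hB hAB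
  have := Fintype.ofFinite G
  have := Fintype.ofFinite (Subgroup.centralizer (V : Set G))
  have hrX : rr M X = ∑ᶠ t : Subgroup.centralizer (V : Set G), j t * rr M (κ t) := by
    have hk : ∀ t, κ t ∈ RM M := fun t => RM_of_int (irr_integral hκ.1 t)
    rw [hX, finsum_eq_sum_of_fintype, finsum_eq_sum_of_fintype,
      rr_sum _ _ (fun (t : Subgroup.centralizer (V : Set G)) _ =>
        (RM M).mul_mem (hi.rm (t : G)) (hk t))]
    refine Finset.sum_congr rfl fun t _ => ?_
    rw [rr_mul (hi.rm t) (hk t), ← hij]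
    rfl
  have hix : (ix V γ : FF M) ≠ 0 := by
    have := hF.char
    intro h0
    exact inx ℓ M hM G e hL.blk V hL.tp hL.ab γ hL.gam.supp hL.gam.blk hL.und
      ((CharP.cast_eq_zero_iff (FF M) ℓ _).1 h0)
  have e2 : X = (Nat.card (Subgroup.centralizer (V : Set G)) * X / (Nat.card V * c)) *
      ((Nat.card V * c : ℂ) / Nat.card (Subgroup.centralizer (V : Set G))) := by
    field_simp
  have hB0 : rr M (Nat.card (Subgroup.centralizer (V : Set G)) * X / (Nat.card V * c)) ≠ 0 := by
    intro h0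
    apply hj.nz κ hκ
    rw [← hrX, e2, rr_mul hB hQ, h0, zero_mul]
  -- the residue of the first number
  have hz := H65.zet_cl (C := V) hi.iv
  have hzR : ∀ g, H65.zet V i g ∈ RM M := fun g => Subring.sum_mem _ fun q _ => hi.rm _
  have k1 := H65.om_RM (M := M) hz hzR hχ.1
  rw [H65.zet_om hχ.1] at k1
  have htr : (fun g => rr M (H65.zet V i g)) = tsm V j := by
    funext g
    unfold H65.zet tsm
    rw [rr_sum _ _ fun q _ => hi.rm _, finsum_eq_sum_of_fintype]
    refine T8.H17.sum_any _ _ _ _ fun q => ?_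
    rw [← hij]
    rfl
  rw [htr] at k1
  have k2 : rr M (Nat.card G * chv i χ / (Nat.card V * χ 1)) = res M (tsm V j) χ := k1.2
  rw [← k2, hAB]
  exact mul_ne_zero hix hB0

theorem ful (lft : T8.LftStmt) (omi : T8.OmiStmt) (knz : T8.KnzStmt) (dgc : DgcStmt)
    (inx : K9.InxStmt) : FulStmt := by
  intro ℓ _ M _ hM G _ _ e V γ hL j hj
  obtain ⟨χ, hχ⟩ := T8.H14.irrE_nonempty M hL.blk.1 hL.blk.2.1
  have hne := res_ne lft omi knz dgc inx hM hL hj hχ
  have hcl : IsCl (tsm V j) := tsm_cl fun v hv => (cj_eq_iff v j).2 fun x => hj.iv v hv x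
  rcases H50.blk_dich hL.blk hcl with ⟨n, hn⟩ | ⟨c, _, hc⟩
  · exact absurd (H50.zero_of_nil hL.blk.1.1 hcl (H50.isChar_res (M := M) hχ.1) hχ.2 hn) hne
  · have h1 : mulF (mulF c (tsm V j)) e ∈ Sj j :=
      mulF_mem_r _ (mulF_mem_l _ (tsm_mem hj.id V))
    rw [hc] at h1
    exact h1

end Pool.Agent.PFD.H52
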