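import Pool.Agent.PFD.StmtsD2c

set_option autoImplicit false

open scoped BigOperators

noncomputable section

namespace Pool.Agent.PFD.H52

open MulOpposite
open Pool.Agent.PFC.B1 (BiM FS Sep)
open Pool.Agent.PFD.D2 Pool.Agent.PFD.D2b

section xcl

variable {R Γ W I Ω : Type} [CommRing R] [Ring Γ] [Algebra R Γ] [CommGroup W] [Fintype W]
  [Fintype I] [Fintype Ω] [MulAction W Ω] (D : WFS R Γ W I)

/-- The sums `E γ x ω`. -/
def EE (γ : Γ) (x : I × Ω → Γ) (ω : Ω) : Γ :=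
  ∑ i, ∑ t, D.lam (γ * D.cf i * D.om t⁻¹) • (D.om t * x (i, t⁻¹ • ω))

theorem lam_h1 (y : Γ) :
    ∑ j, ∑ u, D.lam (D.cf j * D.om u⁻¹) * D.lam (D.om u * D.cf' j * y) = D.lam y := by
  conv_rhs => rw [← D.h1 y]
  rw [map_sum]
  refine Finset.sum_congr rfl fun j _ => ?_
  rw [map_sum]
  refine Fintype.sum_equiv (Equiv.inv W) _ _ fun u => ?_
  rw [map_smul, smul_eq_mul, Equiv.inv_apply, inv_inv, mul_comm]

theorem sum_h2 (y : Γ) :
    ∑ i, ∑ w, D.lam (y * (D.cf i * D.om w⁻¹)) • (D.om w * D.cf' i) = y := by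
  conv_rhs => rw [← D.h2 y]
  refine Finset.sum_congr rfl fun j _ => ?_
  refine Fintype.sum_equiv (Equiv.inv W) _ _ fun u => ?_
  rw [Equiv.inv_apply, inv_inv]

variable {D} in
theorem EE_lm {BX : BiM R Γ (I × Ω → Γ)} (hX : IsX D Ω BX) (γ : Γ) (x : I × Ω → Γ) (ω : Ω) :
    EE D 1 (BX.lm γ x) ω = EE D γ x ω := by
  unfold EE
  have h1 : ∀ j u, D.lam (1 * D.cf j * D.om u⁻¹) • (D.om u * BX.lm γ x (j, u⁻¹ • ω)) =
      ∑ i, ∑ t, (D.lam (D.cf j * D.om u⁻¹) * D.lam (D.om u * D.cf' j *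
        (γ * D.cf i * D.om t⁻¹))) • (D.om t * x (i, t⁻¹ • ω)) := by
    intro j u
    rw [hX.1, one_mul, Finset.mul_sum, Finset.smul_sum]
    refine Finset.sum_congr rfl fun i _ => ?_
    rw [Finset.mul_sum, Finset.smul_sum]
    refine Fintype.sum_equiv (Equiv.mulLeft u) _ _ fun w => ?_
    rw [Equiv.coe_mulLeft, mul_smul_comm, smul_smul]
    have h2 : D.lam (D.om w⁻¹ * D.cf' j * γ * D.cf i) =
        D.lam (D.om u * D.cf' j * (γ * D.cf i * D.om (u * w)⁻¹)) := by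
      have h3 : D.om u * D.cf' j * (γ * D.cf i * D.om (u * w)⁻¹) =
          (D.om u * D.cf' j * γ * D.cf i) * D.om (u * w)⁻¹ := by
        simp only [mul_assoc]
      rw [h3, D.sym (D.om u * D.cf' j * γ * D.cf i)]
      have h4 : D.om w⁻¹ = D.om (u * w)⁻¹ * D.om u := by
        rw [← map_mul, mul_inv, mul_assoc, mul_comm w⁻¹ u, ← mul_assoc, inv_mul_cancel, one_mul]
      rw [h4]
      simp only [mul_assoc]
    have h5 : D.om u * (D.om w * x (i, w⁻¹ • u⁻¹ • ω)) = D.om (u * w) * x (i, (u * w)⁻¹ • ω) := by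
      rw [← mul_assoc, ← map_mul, smul_smul, ← mul_inv_rev]
    rw [h2, h5]
  rw [Finset.sum_congr rfl fun j _ => Finset.sum_congr rfl fun u _ => h1 j u]
  have h6 : ∀ i t, D.lam (γ * D.cf i * D.om t⁻¹) • (D.om t * x (i, t⁻¹ • ω)) =
      ∑ j, ∑ u, (D.lam (D.cf j * D.om u⁻¹) * D.lam (D.om u * D.cf' j *
        (γ * D.cf i * D.om t⁻¹))) • (D.om t * x (i, t⁻¹ • ω)) := by
    intro i t
    conv_lhs => rw [← lam_h1 D (γ * D.cf i * D.om t⁻¹)]
    rw [Finset.sum_smul]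
    refine Finset.sum_congr rfl fun j _ => ?_
    rw [Finset.sum_smul]
  rw [Finset.sum_congr rfl fun i _ => Finset.sum_congr rfl fun t _ => h6 i t]
  calc ∑ j, ∑ u, ∑ i, ∑ t, (D.lam (D.cf j * D.om u⁻¹) * D.lam (D.om u * D.cf' j *
        (γ * D.cf i * D.om t⁻¹))) • (D.om t * x (i, t⁻¹ • ω))
      = ∑ j, ∑ i, ∑ u, ∑ t, (D.lam (D.cf j * D.om u⁻¹) * D.lam (D.om u * D.cf' j *
        (γ * D.cf i * D.om t⁻¹))) • (D.om t * x (i, t⁻¹ • ω)) :=
        Finset.sum_congr rfl fun j _ => Finset.sum_comm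
    _ = ∑ j, ∑ i, ∑ t, ∑ u, (D.lam (D.cf j * D.om u⁻¹) * D.lam (D.om u * D.cf' j *
        (γ * D.cf i * D.om t⁻¹))) • (D.om t * x (i, t⁻¹ • ω)) :=
        Finset.sum_congr rfl fun j _ => Finset.sum_congr rfl fun i _ => Finset.sum_comm
    _ = ∑ i, ∑ j, ∑ t, ∑ u, (D.lam (D.cf j * D.om u⁻¹) * D.lam (D.om u * D.cf' j *
        (γ * D.cf i * D.om t⁻¹))) • (D.om t * x (i, t⁻¹ • ω)) := Finset.sum_comm
    _ = _ := Finset.sum_congr rfl fun i _ => Finset.sum_comm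

theorem EE_cf' [DecidableEq I] [DecidableEq W] (k : I) (x : I × Ω → Γ) (ω : Ω) :
    EE D (D.cf' k) x ω = x (k, ω) := by
  unfold EE
  have h1 : ∀ i t, D.lam (D.cf' k * D.cf i * D.om t⁻¹) =
      D.lam (D.om t⁻¹ * D.cf' k * (D.cf i * D.om 1)) := by
    intro i t
    rw [D.sym, map_one, mul_one]
    simp only [mul_assoc]
  rw [Finset.sum_eq_single k]
  · rw [Finset.sum_eq_single 1]
    · rw [h1, D.d1, one_smul, map_one, one_mul, inv_one, one_smul]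
    · intro t _ ht
      rw [h1, D.d0 _ _ _ _ (Or.inr ht), zero_smul]
    · intro h
      exact absurd (Finset.mem_univ _) h
  · intro i _ hi
    refine Finset.sum_eq_zero fun t _ => ?_
    rw [h1, D.d0 _ _ _ _ (Or.inl (Ne.symm hi)), zero_smul]
  · intro h
    exact absurd (Finset.mem_univ _) h

theorem EE_om (w : W) (x : I × Ω → Γ) (ω : Ω) :
    EE D (D.om w) x ω = D.om w * EE D 1 x (w⁻¹ • ω) := by
  unfold EE
  rw [Finset.mul_sum]
  refine Finset.sum_congr rfl fun i _ => ?_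
  rw [Finset.mul_sum]
  symm
  refine Fintype.sum_equiv (Equiv.mulLeft w) _ _ fun s => ?_
  rw [Equiv.coe_mulLeft, mul_smul_comm, ← mul_assoc, ← map_mul, smul_smul, ← mul_inv_rev, one_mul]
  congr 1
  rw [mul_assoc, D.sym (D.om w), mul_assoc, ← map_mul]
  congr 3
  rw [mul_inv, mul_comm w⁻¹, mul_assoc, inv_mul_cancel, mul_one]

variable {D} in
theorem EE_rm {BX : BiM R Γ (I × Ω → Γ)} (hX : IsX D Ω BX) (γ δ : Γ) (x : I × Ω → Γ) (ω : Ω) :
    EE D γ (BX.rm (op δ) x) ω = EE D γ x ω * δ := by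
  unfold EE
  rw [Finset.sum_mul]
  refine Finset.sum_congr rfl fun i _ => ?_
  rw [Finset.sum_mul]
  refine Finset.sum_congr rfl fun t _ => ?_
  rw [hX.2, smul_mul_assoc, mul_assoc (D.om t)]

theorem EE_add (γ : Γ) (x y : I × Ω → Γ) (ω : Ω) :
    EE D γ (x + y) ω = EE D γ x ω + EE D γ y ω := by
  unfold EE
  simp only [Pi.add_apply, mul_add, smul_add, Finset.sum_add_distrib]

theorem EE_smul (γ : Γ) (p : R) (x : I × Ω → Γ) (ω : Ω) :
    EE D γ (p • x) ω = p • EE D γ x ω := by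
  unfold EE
  rw [Finset.smul_sum]
  refine Finset.sum_congr rfl fun i _ => ?_
  rw [Finset.smul_sum]
  refine Finset.sum_congr rfl fun t _ => ?_
  rw [Pi.smul_apply, mul_smul_comm, smul_comm]

end xcl

/-- the conjugation action -/
def cjg {R Γ W : Type} [CommRing R] [Ring Γ] [Algebra R Γ] [CommGroup W] (om : W →* Γ) :
    W →* (Γ →ₗ[R] Γ) :=
  (wrp om (regB R Γ)).comp ((MonoidHom.id W).prod (MonoidHom.id W))

theorem cjg_apply {R Γ W : Type} [CommRing R] [Ring Γ] [Algebra R Γ] [CommGroup W] (om : W →* Γ)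
    (w : W) (x : Γ) : cjg (R := R) om w x = om w * (x * om w⁻¹) := rfl

theorem xcl (eqf : EqfStmt) (fpx : FpxStmt) : XclStmt := by
  classical
  intro R Γ W I Ω _ _ _ _ _ _ _ _ D BX p hX x hx
  have hfp := (fpx R Γ W I Ω D BX hX p).2
  have hfd : FPl p (cjg (R := R) D.om) := by
    intro S n hn
    obtain ⟨m, hm, hmn⟩ := hfp (S.map ((MonoidHom.id W).prod (MonoidHom.id W))) n (by
      rintro _ ⟨s, hs, rfl⟩
      exact hn s hs)
    exact ⟨m, fun s hs => hm _ ⟨s, hs, rfl⟩, hmn⟩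
  -- `E γ x ω` is congruent to `e ω γ`
  have key : ∀ γ ω, ∃ z, EE D γ x ω - EE D 1 x ω * γ = p • z := by
    intro γ ω
    obtain ⟨y, hy⟩ := hx γ
    have h1 : BX.lm γ x = BX.rm (op γ) x + p • y := by
      rw [← hy, add_sub_cancel]
    have h2 := EE_lm hX γ x ω
    rw [h1, EE_add, EE_smul, EE_rm hX] at h2
    refine ⟨EE D 1 y ω, ?_⟩
    rw [← h2, add_sub_cancel_left]
  obtain ⟨y, hy1, hy2⟩ := eqf R W Γ Ω (cjg (R := R) D.om) p hfd (EE D 1 x) (by
    intro w ω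
    obtain ⟨z, hz⟩ := key (D.om w) (w • ω)
    rw [EE_om, inv_smul_smul] at hz
    refine ⟨-(z * D.om w⁻¹), ?_⟩
    rw [smul_neg, ← smul_mul_assoc, ← hz, cjg_apply, sub_mul, mul_assoc, mul_assoc,
      ← map_mul D.om w w⁻¹, mul_inv_cancel, map_one, mul_one, neg_sub])
  have hy3 : ∀ w ω, D.om w * y (w⁻¹ • ω) = y ω * D.om w := by
    intro w ω
    have h1 := hy1 w (w⁻¹ • ω)
    rw [smul_inv_smul, cjg_apply] at h1
    rw [h1, mul_assoc, mul_assoc, ← map_mul D.om w⁻¹ w, inv_mul_cancel, map_one, mul_one]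
  refine ⟨fun q => y q.2 * D.cf' q.1, ?_, ?_⟩
  · intro γ
    funext q
    obtain ⟨j, ω⟩ := q
    rw [hX.1, hX.2]
    have h1 : ∀ i w, D.lam (D.om w⁻¹ * D.cf' j * γ * D.cf i) •
        (D.om w * (y (w⁻¹ • ω) * D.cf' i)) =
        y ω * (D.lam (D.cf' j * γ * (D.cf i * D.om w⁻¹)) • (D.om w * D.cf' i)) := by
      intro i w
      have h2 : D.lam (D.om w⁻¹ * D.cf' j * γ * D.cf i) =
          D.lam (D.cf' j * γ * (D.cf i * D.om w⁻¹)) := by
        rw [mul_assoc (D.om w⁻¹), mul_assoc (D.om w⁻¹), D.sym]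
        simp only [mul_assoc]
      rw [h2, ← mul_assoc (D.om w), hy3, mul_smul_comm, mul_assoc (y ω)]
    change ∑ i, ∑ w, D.lam (D.om w⁻¹ * D.cf' j * γ * D.cf i) •
        (D.om w * (y (w⁻¹ • ω) * D.cf' i)) = y ω * D.cf' j * γ
    rw [Finset.sum_congr rfl fun i _ => Finset.sum_congr rfl fun w _ => h1 i w]
    simp only [← Finset.mul_sum]
    rw [sum_h2, mul_assoc]
  · have h1 : ∀ q : I × Ω, ∃ z, y q.2 * D.cf' q.1 - x q = p • z := by
      rintro ⟨i, ω⟩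
      obtain ⟨z, hz⟩ := key (D.cf' i) ω
      rw [EE_cf'] at hz
      obtain ⟨z', hz'⟩ := hy2 ω
      refine ⟨z' * D.cf' i - z, ?_⟩
      rw [smul_sub, ← hz, ← smul_mul_assoc, ← hz', sub_mul]
      abel
    choose z hz using h1
    exact ⟨z, funext fun q => hz q⟩

end Pool.Agent.PFD.H52
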